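import Pool.Agent.TH708.Clq.Core

/-!
# Cliques and words over the symmetric group of degree five
-/

set_option autoImplicit false

open Finset

namespace Pool.Agent.TH708.Clq

open Equiv Pool.Agent.W896.HP Pool.Agent.W896.HB

variable {L n : ℕ}

/-- The places at the two ends which are not used. -/
def Dead (u : BV L) : Prop :=
  u.2.2 ≠ 0 ∧ ((u.2.1 = false ∧ u.1.val = 0) ∨ (u.2.1 = true ∧ u.1.val + 1 = L))

/-- The edges, in one direction: the crossings, and all pairs with different letters except those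
that change the place between consecutive letters. -/
def Cmp (g : Fin L → Perm (Fin 5)) (u v : BV L) : Prop :=
  (u.2.1 = false ∧ v.2.1 = true ∧ u.1 = v.1 ∧ u.2.2 = g u.1 v.2.2) ∨
  (¬ Dead u ∧ ¬ Dead v ∧ u.1 < v.1 ∧
    (u.2.1 = true → v.2.1 = false → v.1.val = u.1.val + 1 → u.2.2 = v.2.2))

/-- The graph: `A` consists of vertices joined to each other and to all living places. -/
def gph (e : BV L ↪ Fin n) (A : Finset (Fin n)) (g : Fin L → Perm (Fin 5)) :
    SimpleGraph (Fin n) where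
  Adj x y := x ≠ y ∧ ((x ∈ A ∧ y ∈ A) ∨ (x ∈ A ∧ ∃ u, ¬ Dead u ∧ y = e u) ∨
    (y ∈ A ∧ ∃ u, ¬ Dead u ∧ x = e u) ∨ ∃ u v, x = e u ∧ y = e v ∧ (Cmp g u v ∨ Cmp g v u))
  symm := ⟨by
    rintro x y ⟨h0, h | h | h | ⟨u, v, h1, h2, h3⟩⟩
    · exact ⟨h0.symm, Or.inl ⟨h.2, h.1⟩⟩
    · exact ⟨h0.symm, Or.inr (Or.inr (Or.inl h))⟩
    · exact ⟨h0.symm, Or.inr (Or.inl h)⟩
    · exact ⟨h0.symm, Or.inr (Or.inr (Or.inr ⟨v, u, h2, h1, h3.symm⟩))⟩⟩
  loopless := ⟨fun x h => h.1 rfl⟩

theorem adj_e (e : BV L ↪ Fin n) (A : Finset (Fin n)) (hA : ∀ u, e u ∉ A)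
    (g : Fin L → Perm (Fin 5)) (u v : BV L) :
    (gph e A g).Adj (e u) (e v) ↔ u ≠ v ∧ (Cmp g u v ∨ Cmp g v u) := by
  constructor
  · rintro ⟨h0, h | h | h | ⟨u', v', h1, h2, h3⟩⟩
    · exact absurd h.1 (hA u)
    · exact absurd h.1 (hA u)
    · exact absurd h.1 (hA v)
    · rw [← e.injective h1, ← e.injective h2] at h3
      exact ⟨fun h => h0 (congrArg e h), h3⟩
  · rintro ⟨h0, h⟩
    exact ⟨fun h1 => h0 (e.injective h1), Or.inr (Or.inr (Or.inr ⟨u, v, rfl, rfl, h⟩))⟩

theorem adj_cross (e : BV L ↪ Fin n) (A : Finset (Fin n)) (hA : ∀ u, e u ∉ A)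
    (g : Fin L → Perm (Fin 5)) (t : Fin L) (a a' : Fin 5) :
    (gph e A g).Adj (e (t, false, a)) (e (t, true, a')) ↔ a = g t a' := by
  rw [adj_e e A hA]
  constructor
  · rintro ⟨_, (h | h) | (h | h)⟩
    · exact h.2.2.2
    · exact absurd h.2.2.1 (lt_irrefl _)
    · exact absurd h.1 (by simp)
    · exact absurd h.2.2.1 (lt_irrefl _)
  · intro h
    exact ⟨by simp, Or.inl (Or.inl ⟨rfl, rfl, rfl, h⟩)⟩

theorem adj_cr (e : BV L ↪ Fin n) (A : Finset (Fin n)) (hA : ∀ u, e u ∉ A)
    (g : Fin L → Perm (Fin 5)) (i : Fin L × Fin 5 × Fin 5 × Bool) :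
    (gph e A g).Adj (cr e i).1 (cr e i).2 ↔ i.2.1 = g i.1 i.2.2.1 := by
  obtain ⟨t, a, a', o⟩ := i
  rw [← adj_cross e A hA g t a a']
  cases o with
  | false => exact Iff.rfl
  | true => exact SimpleGraph.adj_comm _ _ _

theorem cmp_other (g g' : Fin L → Perm (Fin 5)) (u v : BV L)
    (h : ¬ (u.2.1 = false ∧ v.2.1 = true ∧ u.1 = v.1)) : Cmp g u v → Cmp g' u v := by
  rintro (h1 | h1)
  · exact absurd ⟨h1.1, h1.2.1, h1.2.2.1⟩ h
  · exact Or.inr h1

theorem gph_other (e : BV L ↪ Fin n) (A : Finset (Fin n)) (g g' : Fin L → Perm (Fin 5))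
    (x y : Fin n) (h : ∀ i, cr e i ≠ (x, y)) : (gph e A g).Adj x y → (gph e A g').Adj x y := by
  rintro ⟨h0, h1 | h1 | h1 | ⟨u, v, rfl, rfl, h3⟩⟩
  · exact ⟨h0, Or.inl h1⟩
  · exact ⟨h0, Or.inr (Or.inl h1)⟩
  · exact ⟨h0, Or.inr (Or.inr (Or.inl h1))⟩
  · refine ⟨h0, Or.inr (Or.inr (Or.inr ⟨u, v, rfl, rfl, ?_⟩))⟩
    rcases h3 with h3 | h3
    · left
      refine cmp_other g g' u v ?_ h3
      rintro ⟨h4, h5, h6⟩
      refine h (u.1, u.2.2, v.2.2, false) ?_
      obtain ⟨t, s, a⟩ := u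
      obtain ⟨t', s', a'⟩ := v
      simp only at h4 h5 h6
      subst h4; subst h5; subst h6
      rfl
    · right
      refine cmp_other g g' v u ?_ h3
      rintro ⟨h4, h5, h6⟩
      refine h (v.1, v.2.2, u.2.2, true) ?_
      obtain ⟨t, s, a⟩ := u
      obtain ⟨t', s', a'⟩ := v
      simp only at h4 h5 h6
      subst h4; subst h5; subst h6
      rfl

theorem gph_fill (e : BV L ↪ Fin n) (A : Finset (Fin n)) (hA : ∀ u, e u ∉ A)
    (g g' : Fin L → Perm (Fin 5)) :
    fill (cr e) (mat (gph e A g')) (fun i => xor false (crossBit g i)) = mat (gph e A g) := by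
  classical
  have hp : Function.Injective (cr e) := cr_inj e
  funext v
  by_cases hv : ∃ i, cr e i = v
  · obtain ⟨i, rfl⟩ := hv
    rw [fill_apply hp, Bool.false_xor]
    unfold mat crossBit
    exact decide_eq_decide.2 (adj_cr e A hA g i).symm
  · push Not at hv
    rw [fill_other _ _ hv]
    obtain ⟨x, y⟩ := v
    unfold mat
    exact decide_eq_decide.2 ⟨gph_other e A g' g x y hv, gph_other e A g g' x y hv⟩

/-- The place on the strand which begins at `0`. -/
def pl (g : Fin L → Perm (Fin 5)) (p : Fin L × Bool) : BV L :=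
  (p.1, p.2, (pre g (p.1.val + if p.2 = true then 1 else 0))⁻¹ 0)

theorem pl_inj (g : Fin L → Perm (Fin 5)) : Function.Injective (pl g) := by
  rintro ⟨t, s⟩ ⟨t', s'⟩ h
  unfold pl at h
  simp only [Prod.mk.injEq] at h
  rw [h.1, h.2.1]

theorem pl_live (hL : 1 ≤ L) (g : Fin L → Perm (Fin 5)) (h : (List.ofFn g).prod = 1)
    (p : Fin L × Bool) : ¬ Dead (pl g p) := by
  obtain ⟨t, s⟩ := p
  unfold Dead pl
  rintro ⟨h1, ⟨h2, h3⟩ | ⟨h2, h3⟩⟩
  · simp only at h1 h2 h3
    subst h2
    apply h1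
    simp [h3, pre_zero]
  · simp only at h1 h2 h3
    subst h2
    apply h1
    simp only [if_true]
    rw [h3, pre_last, h]
    simp

theorem pl_adj (hL : 1 ≤ L) (g : Fin L → Perm (Fin 5)) (h : (List.ofFn g).prod = 1)
    (p q : Fin L × Bool) (hpq : p ≠ q) : Cmp g (pl g p) (pl g q) ∨ Cmp g (pl g q) (pl g p) := by
  have key : ∀ p q : Fin L × Bool, p.1 < q.1 → Cmp g (pl g p) (pl g q) := by
    rintro ⟨t, s⟩ ⟨t', s'⟩ hlt
    right
    refine ⟨pl_live hL g h _, pl_live hL g h _, hlt, ?_⟩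
    intro h1 h2 h3
    unfold pl at h1 h2 h3 ⊢
    simp only at h1 h2 h3 ⊢
    subst h1; subst h2
    simp only [if_true, Bool.false_eq_true, if_false, add_zero]
    rw [h3]
  rcases lt_trichotomy p.1 q.1 with hlt | heq | hgt
  · exact Or.inl (key p q hlt)
  · obtain ⟨t, s⟩ := p
    obtain ⟨t', s'⟩ := q
    simp only at heq
    subst heq
    have hs : s ≠ s' := fun h => hpq (by rw [h])
    have cross : Cmp g (pl g (t, false)) (pl g (t, true)) := by
      left
      refine ⟨rfl, rfl, rfl, ?_⟩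
      unfold pl
      simp only [if_true, Bool.false_eq_true, if_false, add_zero]
      rw [pre_succ, mul_inv_rev, Perm.mul_apply]
      simp
    cases s <;> cases s'
    · exact absurd rfl hs
    · exact Or.inl cross
    · exact Or.inr cross
    · exact absurd rfl hs
  · exact Or.inr (key q p hgt)

/-- If the product is trivial there is a large clique. -/
theorem clique_yes (hL : 1 ≤ L) (e : BV L ↪ Fin n) (A : Finset (Fin n)) (hA : ∀ u, e u ∉ A)
    (g : Fin L → Perm (Fin 5)) (h : (List.ofFn g).prod = 1) :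
    ¬ (gph e A g).CliqueFree (A.card + 2 * L) := by
  classical
  intro hfree
  refine hfree (A ∪ (univ.image fun p => e (pl g p))) ?_
  rw [SimpleGraph.isNClique_iff]
  constructor
  · intro x hx y hy hxy
    rw [mem_coe, mem_union, mem_image] at hx hy
    rcases hx with hx | ⟨p, _, rfl⟩ <;> rcases hy with hy | ⟨q, _, rfl⟩
    · exact ⟨hxy, Or.inl ⟨hx, hy⟩⟩
    · exact ⟨hxy, Or.inr (Or.inl ⟨hx, _, pl_live hL g h q, rfl⟩)⟩
    · exact ⟨hxy, Or.inr (Or.inr (Or.inl ⟨hy, _, pl_live hL g h p, rfl⟩))⟩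
    · rw [adj_e e A hA]
      have hpq : p ≠ q := by rintro rfl; exact hxy rfl
      exact ⟨fun h1 => hpq (pl_inj g h1), pl_adj hL g h p q hpq⟩
  · rw [card_union_of_disjoint, card_image_of_injective, card_univ, Fintype.card_prod,
      Fintype.card_fin, Fintype.card_bool]
    · ring
    · exact e.injective.comp (pl_inj g)
    · rw [disjoint_left]
      intro x hx hx'
      rw [mem_image] at hx'
      obtain ⟨p, _, rfl⟩ := hx'
      exact hA _ hx

/-- A clique of this size forces the product to fix `0`. -/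
theorem clique_no (hL : 2 ≤ L) (e : BV L ↪ Fin n) (A : Finset (Fin n)) (hA : ∀ u, e u ∉ A)
    (g : Fin L → Perm (Fin 5)) (h : ¬ (gph e A g).CliqueFree (A.card + 2 * L)) :
    (List.ofFn g).prod 0 = 0 := by
  classical
  unfold SimpleGraph.CliqueFree at h
  push Not at h
  obtain ⟨S, hS⟩ := h
  rw [SimpleGraph.isNClique_iff] at hS
  obtain ⟨hcl, hcard⟩ := hS
  -- the columns occupied
  set B : Finset (BV L) := univ.filter fun u => e u ∈ S with hB
  have hBadj : ∀ u ∈ B, ∀ v ∈ B, u ≠ v → Cmp g u v ∨ Cmp g v u := by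
    intro u hu v hv huv
    rw [hB, mem_filter] at hu hv
    have := hcl hu.2 hv.2 (fun h => huv (e.injective h))
    rw [adj_e e A hA] at this
    exact this.2
  have hcol : Set.InjOn (fun u : BV L => (u.1, u.2.1)) B := by
    intro u hu v hv huv
    by_contra hne
    simp only [Prod.mk.injEq] at huv
    rcases hBadj u hu v hv hne with (h1 | h1) | (h1 | h1)
    · rw [h1.1, h1.2.1] at huv; exact absurd huv.2 (by simp)
    · rw [huv.1] at h1; exact absurd h1.2.2.1 (lt_irrefl _)
    · rw [h1.1, h1.2.1] at huv; exact absurd huv.2 (by simp)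
    · rw [huv.1] at h1; exact absurd h1.2.2.1 (lt_irrefl _)
  have hBle : B.card ≤ 2 * L := by
    have h1 : B.card ≤ (univ : Finset (Fin L × Bool)).card :=
      card_le_card_of_injOn _ (fun _ _ => mem_coe.2 (mem_univ _)) hcol
    rw [card_univ, Fintype.card_prod, Fintype.card_fin, Fintype.card_bool] at h1
    omega
  -- the clique lies in the union of `A` and the places
  have hbig : 2 ≤ S.card := by rw [hcard]; omega
  have hSsub : S ⊆ A ∪ B.image e := by
    intro x hx
    obtain ⟨y, hy, hyx⟩ := exists_mem_ne (show 1 < S.card by omega) x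
    have hadj := hcl hx hy hyx.symm
    rw [mem_union]
    rcases hadj with ⟨_, h1 | h1 | ⟨_, u, _, rfl⟩ | ⟨u, v, rfl, _, _⟩⟩
    · exact Or.inl h1.1
    · exact Or.inl h1.1
    · exact Or.inr (mem_image.2 ⟨u, by rw [hB, mem_filter]; exact ⟨mem_univ _, hx⟩, rfl⟩)
    · exact Or.inr (mem_image.2 ⟨u, by rw [hB, mem_filter]; exact ⟨mem_univ _, hx⟩, rfl⟩)
  have hBc : B.card = 2 * L := by
    have h1 := (card_le_card hSsub).trans (card_union_le _ _)
    rw [hcard, card_image_of_injective _ e.injective] at h1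
    omega
  -- every column is occupied
  have hocc : ∀ p : Fin L × Bool, ∃ a, (p.1, p.2, a) ∈ B := by
    have h1 : B.image (fun u : BV L => (u.1, u.2.1)) = univ := by
      apply eq_univ_of_card
      rw [card_image_of_injOn hcol, hBc, Fintype.card_prod, Fintype.card_fin, Fintype.card_bool]
      ring
    intro p
    have h2 : p ∈ B.image (fun u : BV L => (u.1, u.2.1)) := by rw [h1]; exact mem_univ _
    rw [mem_image] at h2
    obtain ⟨⟨t, s, a⟩, hu, rfl⟩ := h2
    exact ⟨a, hu⟩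
  choose a ha using hocc
  -- nothing is dead
  have hlive : ∀ p : Fin L × Bool, ¬ Dead ((p.1, p.2, a p) : BV L) := by
    intro p hd
    -- a letter different from that of `p`
    obtain ⟨t', ht'⟩ : ∃ t' : Fin L, t' ≠ p.1 := by
      by_cases h0 : p.1.val = 0
      · exact ⟨⟨1, by omega⟩, fun h => by rw [← h] at h0; simp at h0⟩
      · exact ⟨⟨0, by omega⟩, fun h => h0 (by rw [← h])⟩
    have h1 := hBadj _ (ha p) _ (ha (t', true)) (by
      intro h
      exact ht' (congrArg Prod.fst h).symm)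
    rcases h1 with (h1 | h1) | (h1 | h1)
    · exact ht' h1.2.2.1.symm
    · exact h1.1 hd
    · exact ht' h1.2.2.1
    · exact h1.2.1 hd
  have hcross : ∀ t : Fin L, a (t, false) = g t (a (t, true)) := by
    intro t
    have h1 := hBadj _ (ha (t, false)) _ (ha (t, true)) (by simp)
    rcases h1 with (h1 | h1) | (h1 | h1)
    · exact h1.2.2.2
    · exact absurd h1.2.2.1 (lt_irrefl _)
    · exact absurd h1.1 (by simp)
    · exact absurd h1.2.2.1 (lt_irrefl _)
  have hnext : ∀ (t t' : Fin L), t'.val = t.val + 1 → a (t, true) = a (t', false) := by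
    intro t t' htt
    have hlt : t < t' := by
      show t.val < t'.val
      omega
    have h1 := hBadj _ (ha (t, true)) _ (ha (t', false)) (by simp)
    rcases h1 with (h1 | h1) | (h1 | h1)
    · exact absurd h1.1 (by simp)
    · exact h1.2.2.2 rfl rfl htt
    · have := h1.2.2.1
      exact absurd this (ne_of_gt hlt)
    · exact absurd h1.2.2.1 (not_lt.2 hlt.le)
  have h0 : a (⟨0, by omega⟩, false) = 0 := by
    by_contra hne
    exact hlive (⟨0, by omega⟩, false) ⟨hne, Or.inl ⟨rfl, rfl⟩⟩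
  have hlast : a (⟨L - 1, by omega⟩, true) = 0 := by
    by_contra hne
    exact hlive (⟨L - 1, by omega⟩, true) ⟨hne, Or.inr ⟨rfl, by show L - 1 + 1 = L; omega⟩⟩
  have hind : ∀ t : ℕ, ∀ ht : t < L, pre g (t + 1) (a (⟨t, ht⟩, true)) = 0 := by
    intro t
    induction t with
    | zero =>
      intro ht
      have h1 := pre_succ g ⟨0, ht⟩
      simp only at h1
      rw [h1, Perm.mul_apply, ← hcross, h0, pre_zero]
      rfl
    | succ t ih =>
      intro ht
      have h1 := pre_succ g ⟨t + 1, ht⟩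
      simp only at h1
      rw [h1, Perm.mul_apply, ← hcross, ← hnext ⟨t, by omega⟩ ⟨t + 1, ht⟩ rfl]
      exact ih (by omega)
  have h1 := hind (L - 1) (by omega)
  rw [hlast, show L - 1 + 1 = L by omega, pre_last] at h1
  exact h1

theorem clique_iff (hL : 2 ≤ L) (e : BV L ↪ Fin n) (A : Finset (Fin n)) (hA : ∀ u, e u ∉ A)
    (g : Fin L → Perm (Fin 5)) (h : (List.ofFn g).prod = 1 ∨ (List.ofFn g).prod = tau) :
    ¬ (gph e A g).CliqueFree (A.card + 2 * L) ↔ (List.ofFn g).prod = 1 := by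
  constructor
  · intro hcl
    rcases h with h | h
    · exact h
    · have := clique_no hL e A hA g hcl
      rw [h] at this
      exact absurd this (by decide)
  · intro h1
    exact clique_yes (by omega) e A hA g h1

/-- **Cliques.** -/
theorem clique_stack (k : ℕ) : ∃ D : ℕ, 0 < D ∧ ∀ (n κ T : ℕ), κ ≤ n →
    ∀ (Q : SimpleGraph (Fin n) → Prop),
    ((Q = fun G => ¬ G.CliqueFree κ) ∨ (Q = fun G => G.CliqueFree κ)) →
    ∀ (R : Type) [Fintype R] [Nonempty R] (U : R → Prog (Fin k) (Fin n × Fin n)),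
      (∀ r G l, (U r).Acc (mat G) l → Q G) →
      (∀ G, Q G → Nat.card R ≤ 2 ^ (min κ (n - κ) / D) *
        Nat.card {r // ∃ l, (U r).Acc (mat G) l ∧ travel cellAt l ≤ T}) →
      ∃ r, min κ (n - κ) * n ^ 2 ≤
        D * ((T + n ^ 2) * (Nat.log 2 (Fintype.card (U r).State) + 1)) := by
  classical
  obtain ⟨c, D, hc, hD, hcore⟩ := mat_core' k
  refine ⟨D, hD, ?_⟩
  intro n κ T hκ Q hQ R _ _ U hU hl
  set m := min κ (n - κ) with hm
  rcases Nat.lt_or_ge m D with hMD | hMD
  · obtain ⟨r⟩ := (inferInstance : Nonempty R)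
    refine ⟨r, ?_⟩
    calc m * n ^ 2 ≤ D * n ^ 2 := Nat.mul_le_mul_right _ hMD.le
      _ ≤ D * ((T + n ^ 2) * (Nat.log 2 (Fintype.card (U r).State) + 1)) := by
          apply Nat.mul_le_mul_left
          calc n ^ 2 ≤ (T + n ^ 2) * 1 := by omega
            _ ≤ _ := Nat.mul_le_mul_left _ (by omega)
  have hmκ : m ≤ κ := min_le_left _ _
  have hmn : m ≤ n - κ := min_le_right _ _
  obtain ⟨N, e, hN2, hNn, hmain⟩ := hcore n m hMD (by omega)
  -- the universal vertices
  obtain ⟨A, hAsub, hAc⟩ : ∃ A ⊆ (univ.image e)ᶜ, A.card = κ - 2 * (N * c) := by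
    apply exists_subset_card_eq
    rw [card_compl, Fintype.card_fin, card_image_of_injective _ e.injective, card_univ,
      Fintype.card_prod, Fintype.card_prod, Fintype.card_fin, Fintype.card_bool, Fintype.card_fin]
    omega
  have hA : ∀ u, e u ∉ A := by
    intro u hu
    have := hAsub hu
    rw [mem_compl] at this
    exact this (mem_image_of_mem _ (mem_univ u))
  have hκA : A.card + 2 * (N * c) = κ := by omega
  have hiff : ∀ g : Fin (N * c) → Perm (Fin 5),
      ((List.ofFn g).prod = 1 ∨ (List.ofFn g).prod = tau) →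
      (¬ (gph e A g).CliqueFree κ ↔ (List.ofFn g).prod = 1) := by
    intro g hg
    rw [← clique_iff hN2 e A hA g hg, hκA]
  obtain ⟨Q', hQ'⟩ : ∃ Q' : (Fin n × Fin n → Bool) → Prop,
      Q' = fun x => ∀ G : SimpleGraph (Fin n), mat G = x → Q G := ⟨_, rfl⟩
  have hmat : ∀ G H : SimpleGraph (Fin n), mat G = mat H → G = H := by
    intro G H h
    ext x y
    have := congrFun h (x, y)
    unfold mat at this
    exact decide_eq_decide.1 this
  have hQQ : ∀ G, Q' (mat G) ↔ Q G := by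
    intro G
    rw [hQ']
    constructor
    · intro h; exact h G rfl
    · intro h H hH
      rw [hmat H G hH]
      exact h
  refine hmain (fun g => mat (gph e A g)) false (fun g g' => gph_fill e A hA g g') T Q' ?_ R U ?_ ?_
  · rcases hQ with rfl | rfl
    · refine Or.inl (fun g hg => ?_)
      rw [hQQ]
      exact hiff g hg
    · refine Or.inr (fun g hg => ?_)
      rw [hQQ]
      exact (not_iff_comm.1 (hiff g hg)).symm
  · intro r g l h
    rw [hQQ]
    exact hU r _ l h
  · intro g h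
    rw [hQQ] at h
    exact hl _ h

end Pool.Agent.TH708.Clq
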